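import Pool.Agent.Run7.h507.KR.Defs

set_option autoImplicit false

open MeasureTheory Metric Set Filter Topology

namespace Pool.Agent.Run7.h669.KR

open Pool.Agent.Run7.h507.KR

lemma ci (ρ : ℝ) (hρ : 0 < ρ) (H : ℂ → ℂ) (k : ℤ) :
    (∮ z in C(0, ρ), z ^ (-k - 1) * H z) =
      Complex.I * ((ρ : ℂ) ^ (-k)) * ((2 * Real.pi : ℝ) : ℂ) * co H ρ k := by
  have hpi : ((2 * Real.pi : ℝ) : ℂ) ≠ 0 := by
    exact_mod_cast (by positivity : (2 * Real.pi : ℝ) ≠ 0)
  unfold co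
  rw [show Complex.I * ((ρ : ℂ) ^ (-k)) * ((2 * Real.pi : ℝ) : ℂ) *
      ((((2 * Real.pi)⁻¹ : ℝ) : ℂ) * ∫ θ in (0 : ℝ)..(2 * Real.pi),
      H (circleMap 0 ρ θ) * Complex.exp (-(((k : ℝ) * θ : ℝ) * Complex.I))) =
      (Complex.I * ((ρ : ℂ) ^ (-k))) * ∫ θ in (0 : ℝ)..(2 * Real.pi),
      H (circleMap 0 ρ θ) * Complex.exp (-(((k : ℝ) * θ : ℝ) * Complex.I)) by
    rw [Complex.ofReal_inv]; field_simp]
  rw [← intervalIntegral.integral_const_mul]
  unfold circleIntegral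
  refine intervalIntegral.integral_congr (fun θ _ => ?_)
  simp only [deriv_circleMap, smul_eq_mul]
  have hc : circleMap 0 ρ θ = ρ * Complex.exp (θ * Complex.I) := by
    rw [circleMap_zero]
  have hne : circleMap 0 ρ θ ≠ 0 := circleMap_ne_center hρ.ne'
  have h1 : circleMap 0 ρ θ * circleMap 0 ρ θ ^ (-k - 1) = circleMap 0 ρ θ ^ (-k) := by
    rw [zpow_sub_one₀ hne]
    field_simp
  have h2 : circleMap 0 ρ θ ^ (-k) = (ρ : ℂ) ^ (-k) *
      Complex.exp (-(((k : ℝ) * θ : ℝ) * Complex.I)) := by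
    rw [hc, mul_zpow, ← Complex.exp_int_mul]
    congr 2
    push_cast
    ring
  calc circleMap 0 ρ θ * Complex.I * (circleMap 0 ρ θ ^ (-k - 1) * H (circleMap 0 ρ θ))
      = Complex.I * (circleMap 0 ρ θ * circleMap 0 ρ θ ^ (-k - 1)) * H (circleMap 0 ρ θ) := by ring
    _ = _ := by rw [h1, h2]; ring

theorem t_ANN : S_ANN := by
  intro r ρ R H k hr hrρ hρR hR1 hH
  have hρ : 0 < ρ := lt_of_le_of_lt hr hrρ
  have hR : 0 < R := hρ.trans hρR
  have hopen : IsOpen (Ann r) := by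
    have : Ann r = (fun z : ℂ => ‖z‖) ⁻¹' (Ioo r 1) := rfl
    rw [this]
    exact isOpen_Ioo.preimage continuous_norm
  have hdz : ∀ z ∈ Ann r, DifferentiableAt ℂ (fun z : ℂ => z ^ (-k - 1) * H z) z := by
    intro z hz
    have hz0 : z ≠ 0 := by
      intro h
      rw [h] at hz
      have := hz.1
      rw [norm_zero] at this
      linarith
    exact (differentiableAt_zpow.2 (Or.inl hz0)).mul (hH.differentiableAt (hopen.mem_nhds hz))
  have key := Complex.circleIntegral_eq_of_differentiable_on_annulus_off_countable (c := 0)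
    (f := fun z : ℂ => z ^ (-k - 1) * H z) hρ hρR.le (s := ∅) countable_empty
    (by
      intro z hz
      refine (hdz z ?_).continuousAt.continuousWithinAt
      have h1 : ‖z‖ ≤ R := by simpa using hz.1
      have h2 : ρ ≤ ‖z‖ := by simpa using hz.2
      exact ⟨by linarith, by linarith⟩)
    (by
      intro z hz
      refine hdz z ?_
      have h1 : ‖z‖ < R := by simpa using hz.1.1
      have h2 : ρ < ‖z‖ := by simpa using hz.1.2
      exact ⟨by linarith, by linarith⟩)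
  rw [ci R hR, ci ρ hρ] at key
  have hpi : ((2 * Real.pi : ℝ) : ℂ) ≠ 0 := by
    exact_mod_cast (by positivity : (2 * Real.pi : ℝ) ≠ 0)
  have hρc : (ρ : ℂ) ≠ 0 := by exact_mod_cast hρ.ne'
  have hRc : (R : ℂ) ≠ 0 := by exact_mod_cast hR.ne'
  have key2 : (R : ℂ) ^ (-k) * co H R k = (ρ : ℂ) ^ (-k) * co H ρ k := by
    have h3 : Complex.I * ((2 * Real.pi : ℝ) : ℂ) ≠ 0 := mul_ne_zero Complex.I_ne_zero hpi
    apply mul_left_cancel₀ h3
    linear_combination key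
  have h4 : (((ρ / R) ^ k : ℝ) : ℂ) = (ρ : ℂ) ^ k * (R : ℂ) ^ (-k) := by
    push_cast
    rw [div_zpow, zpow_neg, div_eq_mul_inv]
  rw [h4, mul_assoc, key2, ← mul_assoc, zpow_neg, mul_inv_cancel₀ (zpow_ne_zero _ hρc), one_mul]

end Pool.Agent.Run7.h669.KR
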