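import Pool.Agent.Run7.h507.KR.Defs

set_option autoImplicit false

open MeasureTheory Metric Set Filter Topology

namespace Pool.Agent.Run7.h669.KR

open Pool.Agent.Run7.h507.KR

theorem t_PAR : S_PAR := by
  intro R H hR hH
  have h2 : (0 : ℝ) < 2 * Real.pi := by positivity
  have hcont : Continuous (fun θ : ℝ => H (circleMap 0 R θ)) :=
    hH.comp_continuous (continuous_circleMap 0 R) (fun θ => circleMap_mem_sphere 0 hR.le θ)
  have hL : MemLp (fun θ : ℝ => H (circleMap 0 R θ)) 2
      (volume.restrict (Ioc 0 (2 * Real.pi))) := by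
    obtain ⟨C, hC⟩ := (isCompact_Icc (a := (0 : ℝ)) (b := 2 * Real.pi)).exists_bound_of_continuousOn
      hcont.continuousOn
    refine MemLp.of_bound hcont.aestronglyMeasurable C ?_
    rw [ae_restrict_iff' measurableSet_Ioc]
    exact Eventually.of_forall (fun x hx => hC x ⟨hx.1.le, hx.2⟩)
  have key := hasSum_sq_fourierCoeffOn h2 hL
  have e1 : ∀ k : ℤ, co H R k = fourierCoeffOn h2 (fun θ : ℝ => H (circleMap 0 R θ)) k := by
    intro k
    rw [fourierCoeffOn_eq_integral]
    unfold co
    rw [sub_zero, one_div, Complex.real_smul]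
    congr 1
    refine intervalIntegral.integral_congr (fun x _ => ?_)
    simp only [fourier_coe_apply, smul_eq_mul]
    rw [mul_comm]
    congr 2
    have : (Real.pi : ℂ) ≠ 0 := by exact_mod_cast Real.pi_ne_zero
    push_cast
    field_simp
  have e2 : ms H R = (2 * Real.pi - 0)⁻¹ • ∫ x in (0 : ℝ)..(2 * Real.pi),
      ‖H (circleMap 0 R x)‖ ^ 2 := by
    unfold ms
    rw [sub_zero, smul_eq_mul]
  rw [e2]
  simp only [e1]
  exact key

end Pool.Agent.Run7.h669.KR
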